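import Pool.Agent.BES.Stmts

/-!
# Squad BES (MP_be01ff_an), row SDO: the sector is a domain
-/

set_option autoImplicit false

namespace Pool.Agent.BES.H89

open Set Filter Topology MeasureTheory
open Pool.Agent.BE01 Pool.Agent.BES

theorem norm_sg (x : En 2) : ‖sg x‖ = ‖x‖ := by
  rw [EuclideanSpace.norm_eq, EuclideanSpace.norm_eq]
  congr 1
  simp [Fin.sum_univ_two, sg]

theorem sg_zero (x : En 2) : sg x 0 = x 0 := by
  simp [sg]

theorem al_pos (m : ℕ) : 0 < al m ∧ al m ≤ Real.pi := by
  unfold al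
  have h : (1 : ℝ) ≤ 2 * m + 1 := by
    have : (0 : ℝ) ≤ m := Nat.cast_nonneg m
    linarith
  exact ⟨div_pos Real.pi_pos (by linarith), div_le_self Real.pi_pos.le h⟩

theorem cos_al_lt (m : ℕ) : Real.cos (al m) < 1 := by
  obtain ⟨h1, h2⟩ := al_pos m
  have := Real.cos_lt_cos_of_nonneg_of_le_pi (le_refl 0) h2 h1
  rwa [Real.cos_zero] at this

theorem sdo : SdoStmt := by
  intro m R hR
  refine ⟨⟨?_, ?_, ?_⟩, ?_, ?_⟩
  · have h1 : IsOpen {x : En 2 | ‖x‖ < R} := isOpen_lt continuous_norm continuous_const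
    have h2 : IsOpen {x : En 2 | ‖x‖ * Real.cos (al m) < x 0} :=
      isOpen_lt (continuous_norm.mul continuous_const) (by fun_prop)
    exact h1.inter h2
  · refine (Metric.isBounded_ball (x := (0 : En 2)) (r := R)).subset fun x hx => ?_
    rw [mem_ball_zero_iff]
    exact hx.1
  · refine ⟨EuclideanSpace.single (0 : Fin 2) (R / 2), ?_, ?_⟩
    · rw [EuclideanSpace.norm_single, Real.norm_eq_abs, abs_of_pos (by linarith)]
      linarith
    · rw [EuclideanSpace.norm_single, Real.norm_eq_abs, abs_of_pos (by linarith)]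
      have h := cos_al_lt m
      have h3 : (EuclideanSpace.single (0 : Fin 2) (R / 2) : En 2) 0 = R / 2 := by simp
      rw [h3]
      nlinarith
  · intro x hx
    have h1 := hx.2
    have h2 := Real.neg_one_le_cos (al m)
    have h3 := norm_nonneg x
    show -‖x‖ < x 0
    nlinarith
  · intro x
    unfold Sec
    simp only [Set.mem_setOf_eq, norm_sg, sg_zero]

end Pool.Agent.BES.H89
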